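import Pool.Agent.Helper10.K3R.Defs

/-!
# Module RA : topology of the group of real points
-/

namespace KumWA

open Classical Topology Filter

theorem ra_ab {x y : ℝ} (hy : |x| ≤ |y|) : x ^ 2 ≤ y ^ 2 := by
  have := mul_self_le_mul_self (abs_nonneg x) hy
  nlinarith [sq_abs x, sq_abs y]

theorem far_add (d : ℝ) {R : ℝ} (hR : 0 < R) :
    ∃ R' : ℝ, R ≤ R' ∧ ∀ P Q : E d, Far R' P → Far R' Q → Far R (P + Q) := by
  have nd : 0 ≤ |d| := abs_nonneg d
  refine ⟨32 * R + 32 * |d| + 1, by linarith, fun P Q hP hQ => ?_⟩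
  have hle : R ≤ 32 * R + 32 * |d| + 1 := by linarith
  by_cases hP0 : P = 0
  · rw [hP0, zero_add]; exact hQ.mono hle
  by_cases hQ0 : Q = 0
  · rw [hQ0, add_zero]; exact hP.mono hle
  by_cases hPQ : P + Q = 0
  · left; exact hPQ
  have hP' := hP.resolve_left hP0
  have hQ' := hQ.resolve_left hQ0
  right
  by_cases hx : xc P = xc Q
  · -- doubling
    have hPQ' : P = Q := by
      rcases (xc_eq_iff hP0 hQ0).1 hx with h | h
      · exact h
      · exfalso; apply hPQ; rw [h]; exact neg_add_cancel Q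
    rw [← hPQ'] at hPQ ⊢
    have hy : yc P ≠ 0 := fun h => hPQ (add_self_of_yc h)
    obtain ⟨-, h1⟩ := xc_double hP0 hy
    have e := curve_eq P
    set a := xc P with ha
    set y := yc P with hyy
    set s := xc (P + P) with hs
    have A1 : 1 ≤ |a| := by linarith
    have hn : |xc (P + P) * (4 * yc P ^ 2)| = |(xc P ^ 2 - 2 * d ^ 2) ^ 2| := by rw [h1]
    have f1 : |s * (4 * y ^ 2)| ≤ |s| * (4 * (2 * |a| ^ 3)) := by
      rw [abs_mul, abs_mul]
      have h4 : |(4 : ℝ)| ≤ 4 := by norm_num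
      have hy2 : |y ^ 2| ≤ 2 * |a| ^ 3 := by
        rw [e]
        refine (abs_add_le _ _).trans ?_
        have i1 := abs_add_le (a ^ 3) (4 * d * a ^ 2)
        rw [abs_mul, abs_mul, abs_pow, abs_pow] at i1
        have i2 : |2 * d ^ 2 * a| = 2 * |d| ^ 2 * |a| := by
          rw [abs_mul, abs_mul, abs_pow]; norm_num
        rw [i2]
        have i4 : |(4 : ℝ)| = 4 := by norm_num
        rw [i4] at i1
        have i5 : |d| ≤ 1 / 32 * |a| := by linarith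
        have i6 : 4 * |d| * |a| ^ 2 ≤ 4 * (1 / 32 * |a|) * |a| ^ 2 := by gcongr
        have i7 : 2 * |d| ^ 2 * |a| ≤ 2 * (1 / 32 * |a|) ^ 2 * |a| := by gcongr
        have i8 : 0 ≤ |a| ^ 3 := by positivity
        nlinarith
      gcongr
    have f2 : (3 / 4 * |a| ^ 2) ^ 2 ≤ |(a ^ 2 - 2 * d ^ 2) ^ 2| := by
      rw [abs_pow]
      apply pow_le_pow_left₀ (by positivity)
      have h3 : |a ^ 2| - |2 * d ^ 2| ≤ |a ^ 2 - 2 * d ^ 2| := abs_sub_abs_le_abs_sub _ _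
      rw [abs_mul, abs_pow, abs_pow] at h3
      have i4 : |(2 : ℝ)| = 2 := by norm_num
      rw [i4] at h3
      have : (32 * |d|) ^ 2 ≤ |a| ^ 2 := pow_le_pow_left₀ (by positivity) (by linarith) 2
      nlinarith
    rw [hn] at f1
    have f3 : (3 / 4 * |a| ^ 2) ^ 2 ≤ |s| * (4 * (2 * |a| ^ 3)) := f2.trans f1
    have ha3 : 0 < |a| ^ 3 := by positivity
    have f4 : 9 / 16 * |a| ≤ 8 * |s| := by
      have : (9 / 16 * |a|) * |a| ^ 3 ≤ (8 * |s|) * |a| ^ 3 := by nlinarith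
      exact le_of_mul_le_mul_right this ha3
    linarith
  · -- chord
    obtain ⟨-, h1⟩ := xc_add_mul hP0 hQ0 hx
    obtain ⟨-, h2⟩ := xc_sub_mul hP0 hQ0 hx
    have h3 := xc_add_sub hP0 hQ0 hx
    set a := xc P with ha
    set b := xc Q with hb
    set s := xc (P + Q) with hs
    set t := xc (P - Q) with ht
    by_contra hlt
    rw [not_le] at hlt
    have key : s * (2 * (a * b + 2 * d ^ 2) * (a + b) + 16 * d * (a * b) - s * (a - b) ^ 2) =
        (a * b - 2 * d ^ 2) ^ 2 := by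
      have h12 : t * (a - b) ^ 2 = 2 * (a * b + 2 * d ^ 2) * (a + b) + 16 * d * (a * b)
          - s * (a - b) ^ 2 := by
        linear_combination h1 + h2
      rw [← h12, ← h3]; ring
    have hn : |s * (2 * (a * b + 2 * d ^ 2) * (a + b) + 16 * d * (a * b) - s * (a - b) ^ 2)| =
        |(a * b - 2 * d ^ 2) ^ 2| := by rw [key]
    have A1 : 1 ≤ |a| := by linarith
    have B1 : 1 ≤ |b| := by linarith
    have hab0 : 0 < |a| * |b| := by positivity
    have hd2 : 1024 * |d| ^ 2 ≤ |a| * |b| := by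
      have h5 : 32 * |d| ≤ |a| := by linarith
      have h6 : 32 * |d| ≤ |b| := by linarith
      have := mul_le_mul h5 h6 (by positivity) (by positivity)
      nlinarith
    have i2 : |(2 : ℝ)| = 2 := by norm_num
    have i16 : |(16 : ℝ)| = 16 := by norm_num
    have g1 : (3 / 4 * (|a| * |b|)) ^ 2 ≤ |(a * b - 2 * d ^ 2) ^ 2| := by
      rw [abs_pow]
      apply pow_le_pow_left₀ (by positivity)
      have h3 : |a * b| - |2 * d ^ 2| ≤ |a * b - 2 * d ^ 2| := abs_sub_abs_le_abs_sub _ _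
      rw [abs_mul, abs_mul, abs_pow, i2] at h3
      nlinarith
    have g2 : |s * (2 * (a * b + 2 * d ^ 2) * (a + b) + 16 * d * (a * b) - s * (a - b) ^ 2)| ≤
        R * (2 * (5 / 4 * (|a| * |b|)) * (|a| + |b|) + 1 / 4 * (|a| * |b|) * (|a| + |b|)
          + R * (|a| + |b|) ^ 2) := by
      rw [abs_mul]
      have k1 : |2 * (a * b + 2 * d ^ 2) * (a + b)| ≤
          2 * (5 / 4 * (|a| * |b|)) * (|a| + |b|) := by
        rw [abs_mul, abs_mul, i2]
        have h5 : |a * b + 2 * d ^ 2| ≤ 5 / 4 * (|a| * |b|) := by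
          refine (abs_add_le _ _).trans ?_
          rw [abs_mul, abs_mul, abs_pow, i2]
          linarith
        have h6 := abs_add_le a b
        gcongr
      have k0 : |16 * d * (a * b)| ≤ 1 / 4 * (|a| * |b|) * (|a| + |b|) := by
        rw [abs_mul, abs_mul, abs_mul, i16]
        have h5 : 16 * |d| ≤ 1 / 4 * (|a| + |b|) := by linarith
        have := mul_le_mul_of_nonneg_right h5 hab0.le
        linarith
      have k2 : |s * (a - b) ^ 2| ≤ R * (|a| + |b|) ^ 2 := by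
        rw [abs_mul, abs_pow]
        have h6 := abs_sub a b
        gcongr
      have k3 := abs_sub (2 * (a * b + 2 * d ^ 2) * (a + b) + 16 * d * (a * b)) (s * (a - b) ^ 2)
      have k3' := abs_add_le (2 * (a * b + 2 * d ^ 2) * (a + b)) (16 * d * (a * b))
      have k4 : |2 * (a * b + 2 * d ^ 2) * (a + b) + 16 * d * (a * b) - s * (a - b) ^ 2| ≤
        2 * (5 / 4 * (|a| * |b|)) * (|a| + |b|) + 1 / 4 * (|a| * |b|) * (|a| + |b|)
          + R * (|a| + |b|) ^ 2 := by linarith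
      gcongr
    rw [hn] at g2
    have g3 := g1.trans g2
    -- R (|a| + |b|) ≤ |a| |b| / 16
    have r1 : 32 * R ≤ |a| := by linarith
    have r2 : 32 * R ≤ |b| := by linarith
    have g4 : R * (|a| + |b|) ≤ 1 / 16 * (|a| * |b|) := by nlinarith
    have g5 : (R * (|a| + |b|)) ^ 2 ≤ (1 / 16 * (|a| * |b|)) ^ 2 :=
      pow_le_pow_left₀ (by positivity) g4 2
    have g6 : 0 < (|a| * |b|) ^ 2 := by positivity
    have g7 : (|a| * |b|) * (R * (|a| + |b|)) ≤ (|a| * |b|) * (1 / 16 * (|a| * |b|)) := by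
      gcongr
    nlinarith

theorem ra_inv {d : ℝ} {R : ℝ} (hR : 0 < R) {F : E d} (hF : Far R F) (hF0 : F ≠ 0) :
    xc F ≠ 0 ∧ |(xc F)⁻¹| ≤ R⁻¹ ∧
      |yc F / xc F ^ 2| ^ 2 ≤ R⁻¹ + 4 * |d| * R⁻¹ ^ 2 + 2 * |d| ^ 2 * R⁻¹ ^ 3 := by
  have h := hF.resolve_left hF0
  have hX : 0 < |xc F| := lt_of_lt_of_le hR h
  have hX0 : xc F ≠ 0 := abs_pos.1 hX
  have hu : |(xc F)⁻¹| ≤ R⁻¹ := by rw [abs_inv]; gcongr
  refine ⟨hX0, hu, ?_⟩
  have e := curve_eq F
  have e1 : (yc F / xc F ^ 2) ^ 2 = (xc F)⁻¹ + 4 * d * (xc F)⁻¹ ^ 2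
      + 2 * d ^ 2 * (xc F)⁻¹ ^ 3 := by
    field_simp
    linear_combination e
  rw [← abs_pow, e1]
  refine (abs_add_le _ _).trans ?_
  have h1 := abs_add_le (xc F)⁻¹ (4 * d * (xc F)⁻¹ ^ 2)
  have i2 : |(2 : ℝ)| = 2 := by norm_num
  have i4 : |(4 : ℝ)| = 4 := by norm_num
  have h2 : |4 * d * (xc F)⁻¹ ^ 2| = 4 * |d| * |(xc F)⁻¹| ^ 2 := by
    rw [abs_mul, abs_mul, abs_pow, i4]
  have h3 : |2 * d ^ 2 * (xc F)⁻¹ ^ 3| = 2 * |d| ^ 2 * |(xc F)⁻¹| ^ 3 := by
    rw [abs_mul, abs_mul, abs_pow, abs_pow, i2]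
  rw [h3]
  rw [h2] at h1
  have h4 : 4 * |d| * |(xc F)⁻¹| ^ 2 ≤ 4 * |d| * R⁻¹ ^ 2 := by gcongr
  have h5 : 2 * |d| ^ 2 * |(xc F)⁻¹| ^ 3 ≤ 2 * |d| ^ 2 * R⁻¹ ^ 3 := by gcongr
  linarith

/-- group-close implies coordinate-close -/
theorem close_of_far {d : ℝ} {P : E d} (hP : P ≠ 0) {ε : ℝ} (hε : 0 < ε) :
    ∃ R : ℝ, 0 < R ∧ ∀ F : E d, Far R F →
      P + F ≠ 0 ∧ |xc (P + F) - xc P| < ε ∧ |yc (P + F) - yc P| < ε := by
  set x := xc P with hx
  set y := yc P with hy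
  -- the coordinates of `P + F` as functions of `u = 1 / X`, `w = Y / X ^ 2`
  let gx : ℝ × ℝ → ℝ := fun q => ((x + 2 * d ^ 2 * q.1) * (x * q.1 + 1) + 8 * d * x * q.1
    - 2 * y * q.2) / (x * q.1 - 1) ^ 2
  let gy : ℝ × ℝ → ℝ := fun q => -y - (y * (3 * x ^ 2 * q.1 ^ 2 + 2 * d ^ 2 * x * q.1 ^ 3
    + 2 * d ^ 2 * q.1 ^ 2 + 8 * d * x * q.1 ^ 2 - 2 * y * q.2 * q.1 - x ^ 3 * q.1 ^ 3)
    - (3 * x ^ 2 * q.2 + 2 * d ^ 2 * x * q.2 * q.1 + 2 * d ^ 2 * q.2 + 8 * d * x * q.2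
    - 2 * y * (1 + 4 * d * q.1 + 2 * d ^ 2 * q.1 ^ 2) - x ^ 3 * q.2 * q.1)) /
    (x * q.1 - 1) ^ 3
  have hden : ∀ k : ℕ, (x * ((0, 0) : ℝ × ℝ).1 - 1) ^ k ≠ 0 := fun k => by simp
  have cgx : ContinuousAt gx (0, 0) := by
    apply ContinuousAt.div
    · fun_prop
    · fun_prop
    · exact hden 2
  have cgy : ContinuousAt gy (0, 0) := by
    apply ContinuousAt.sub continuousAt_const
    apply ContinuousAt.div
    · fun_prop
    · fun_prop
    · exact hden 3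
  have vgx : gx (0, 0) = x := by simp [gx]
  have vgy : gy (0, 0) = y := by simp [gy]; ring
  have ev1 : ∀ᶠ q in 𝓝 ((0, 0) : ℝ × ℝ), |gx q - x| < ε := by
    have : ContinuousAt (fun q => |gx q - x|) (0, 0) := (cgx.sub continuousAt_const).abs
    exact this.eventually_lt continuousAt_const (by simpa [vgx] using hε)
  have ev2 : ∀ᶠ q in 𝓝 ((0, 0) : ℝ × ℝ), |gy q - y| < ε := by
    have : ContinuousAt (fun q => |gy q - y|) (0, 0) := (cgy.sub continuousAt_const).abs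
    exact this.eventually_lt continuousAt_const (by simpa [vgy] using hε)
  obtain ⟨δ, hδ, H⟩ := Metric.eventually_nhds_iff.1 (ev1.and ev2)
  -- choose `R`
  obtain ⟨R, hR0, hRx, hR1, hR2⟩ : ∃ R : ℝ, 0 < R ∧ |x| < R ∧ R⁻¹ < δ ∧
      R⁻¹ + 4 * |d| * R⁻¹ ^ 2 + 2 * |d| ^ 2 * R⁻¹ ^ 3 < δ ^ 2 := by
    have t1 : Tendsto (fun R : ℝ => R⁻¹) atTop (𝓝 0) := tendsto_inv_atTop_zero
    have t2 : Tendsto (fun R : ℝ => R⁻¹ + 4 * |d| * R⁻¹ ^ 2 + 2 * |d| ^ 2 * R⁻¹ ^ 3) atTop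
        (𝓝 0) := by
      have := (t1.add ((t1.pow 2).const_mul (4 * |d|))).add ((t1.pow 3).const_mul (2 * |d| ^ 2))
      simpa using this
    have a1 := t1.eventually_lt_const hδ
    have a2 := t2.eventually_lt_const (by positivity : (0 : ℝ) < δ ^ 2)
    obtain ⟨R, h1, h2, h3, h4⟩ := (a1.and (a2.and ((eventually_gt_atTop 0).and
      (eventually_gt_atTop |x|)))).exists
    exact ⟨R, h3, h4, h1, h2⟩
  refine ⟨R, hR0, fun F hF => ?_⟩
  by_cases hF0 : F = 0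
  · rw [hF0, add_zero]
    exact ⟨hP, by simpa [x] using hε, by simpa [y] using hε⟩
  obtain ⟨hX0, hu, hw⟩ := ra_inv hR0 hF hF0
  have hXR := hF.resolve_left hF0
  have hne : xc P ≠ xc F := by
    intro h
    rw [← h] at hXR
    exact absurd hXR (not_le.2 hRx)
  obtain ⟨g1, g2⟩ := xc_add_mul hP hF0 hne
  obtain ⟨L, c, l1, l2, l3, -, -, -⟩ := line_add hP hF0 g1
  set X := xc F with hXdef
  set Y := yc F with hYdef
  have e := curve_eq F
  rw [← hXdef, ← hYdef] at e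
  have hw' : |Y / X ^ 2| < δ := by
    apply lt_of_pow_lt_pow_left₀ 2 hδ.le
    exact lt_of_le_of_lt hw hR2
  obtain ⟨H1, H2⟩ := H (y := (X⁻¹, Y / X ^ 2)) (by
    rw [Prod.dist_eq, max_lt_iff, Real.dist_eq, Real.dist_eq, sub_zero, sub_zero]
    exact ⟨lt_of_le_of_lt hu hR1, hw'⟩)
  have hxX : x - X ≠ 0 := sub_ne_zero.2 hne
  have hden' : x * X⁻¹ - 1 ≠ 0 := by
    intro h
    apply hxX
    have : (x - X) * X⁻¹ = 0 := by rw [sub_mul, mul_inv_cancel₀ hX0]; exact h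
    exact (mul_eq_zero.1 this).resolve_right (inv_ne_zero hX0)
  have ex : xc (P + F) = gx (X⁻¹, Y / X ^ 2) := by
    have : xc (P + F) = ((x * X + 2 * d ^ 2) * (x + X) + 8 * d * (x * X) - 2 * y * Y) /
        (x - X) ^ 2 := by
      rw [eq_div_iff (pow_ne_zero 2 hxX)]; exact g2
    rw [this]
    simp only [gx]
    rw [div_eq_div_iff (pow_ne_zero 2 hxX) (pow_ne_zero 2 hden')]
    field_simp
    try ring
  have ey : yc (P + F) = gy (X⁻¹, Y / X ^ 2) := by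
    have hL : L * (x - X) = y - Y := by linear_combination l2 - l1
    have hyd : yc (P + F) = -y - (y - Y) * (3 * x ^ 2 * X + 2 * d ^ 2 * x + 2 * d ^ 2 * X
        + 8 * d * x * X - 2 * y * Y - x ^ 3) / (x - X) ^ 3 := by
      have e1 : yc (P + F) = - y - L * (xc (P + F) - x) := by
        linear_combination l3 + l1
      have e2 : xc (P + F) - x = (3 * x ^ 2 * X + 2 * d ^ 2 * x + 2 * d ^ 2 * X
        + 8 * d * x * X - 2 * y * Y - x ^ 3) / (x - X) ^ 2 := by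
        rw [eq_div_iff (pow_ne_zero 2 hxX)]
        linear_combination g2
      have e3 : L = (y - Y) / (x - X) := by rw [eq_div_iff hxX]; exact hL
      rw [e1, e2, e3]
      field_simp
    rw [hyd]
    simp only [gy]
    congr 1
    rw [div_eq_div_iff (pow_ne_zero 3 hxX) (pow_ne_zero 3 hden')]
    field_simp
    linear_combination (2 * y) * e
  rw [ex, ey]
  exact ⟨g1, H1, H2⟩

/-- coordinate-close implies group-close -/
theorem far_of_close {d : ℝ} {P : E d} (hP : P ≠ 0) (hy : yc P ≠ 0) (R : ℝ) :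
    ∃ ε : ℝ, 0 < ε ∧ ∀ P' : E d, P' ≠ 0 → |xc P' - xc P| < ε → |yc P' - yc P| < ε →
      Far R (P' - P) := by
  set x := xc P with hx
  set y := yc P with hyd
  let N : ℝ × ℝ → ℝ := fun q => (q.1 * x + 2 * d ^ 2) * (q.1 + x) + 8 * d * (q.1 * x)
    + 2 * q.2 * y
  have cN : Continuous N := by fun_prop
  have e := curve_eq P
  rw [← hx, ← hyd] at e
  have vN : N (x, y) = 2 ^ 2 * y ^ 2 := by
    simp only [N]; linear_combination (-2) * e
  have hNne : 0 < |(2 ^ 2 * y ^ 2 : ℝ)| := by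
    rw [abs_pos]
    exact mul_ne_zero (pow_ne_zero _ two_ne_zero) (pow_ne_zero _ hy)
  have ev1 : ∀ᶠ q in 𝓝 ((x, y) : ℝ × ℝ), |(2 ^ 2 * y ^ 2 : ℝ)| / 2 < |N q| := by
    have : ContinuousAt (fun q => |N q|) (x, y) := cN.abs.continuousAt
    apply continuousAt_const.eventually_lt this
    change |(2 ^ 2 * y ^ 2 : ℝ)| / 2 < |N (x, y)|
    rw [vN]
    exact half_lt_self hNne
  obtain ⟨δ, hδ, H⟩ := Metric.eventually_nhds_iff.1 ev1
  set R' : ℝ := max R 1 with hR'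
  have hR'1 : 1 ≤ R' := le_max_right _ _
  have h2y : 0 < |2 * y| := abs_pos.2 (mul_ne_zero two_ne_zero hy)
  obtain ⟨ε, hε, hε1, hε2, hε3⟩ : ∃ ε : ℝ, 0 < ε ∧ ε ≤ δ ∧ ε ≤ |2 * y| ∧
      R' * ε ^ 2 ≤ |(2 ^ 2 * y ^ 2 : ℝ)| / 2 := by
    set κ : ℝ := |(2 ^ 2 * y ^ 2 : ℝ)| / 2 / R' with hκ
    have hκ0 : 0 < κ := by positivity
    refine ⟨min (min δ |2 * y|) (min 1 κ), ?_, ?_, ?_, ?_⟩
    · refine lt_min (lt_min hδ h2y) (lt_min one_pos hκ0)
    · exact (min_le_left _ _).trans (min_le_left _ _)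
    · exact (min_le_left _ _).trans (min_le_right _ _)
    · set ε := min (min δ |2 * y|) (min 1 κ)
      have h1 : ε ≤ 1 := (min_le_right _ _).trans (min_le_left _ _)
      have h2 : ε ≤ κ := (min_le_right _ _).trans (min_le_right _ _)
      have h3 : 0 < ε := lt_min (lt_min hδ h2y) (lt_min one_pos hκ0)
      have h4 : ε ^ 2 ≤ κ := by nlinarith
      calc R' * ε ^ 2 ≤ R' * κ := by gcongr
        _ = |(2 ^ 2 * y ^ 2 : ℝ)| / 2 := by rw [hκ]; field_simp
  refine ⟨ε, hε, fun P' hP' hx' hy' => ?_⟩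
  by_cases hxx : xc P' = xc P
  · rcases (xc_eq_iff hP' hP).1 hxx with h | h
    · left; rw [h, sub_self]
    · exfalso
      rw [h, yc_neg] at hy'
      have : -yc P - y = -(2 * y) := by rw [hyd]; ring
      rw [this, abs_neg] at hy'
      exact absurd hy' (not_lt.2 hε2)
  · obtain ⟨h3, h4⟩ := xc_sub_mul hP' hP hxx
    right
    have hN := H (y := (xc P', yc P')) (by
      rw [Prod.dist_eq, max_lt_iff, Real.dist_eq, Real.dist_eq]
      exact ⟨lt_of_lt_of_le hx' hε1, lt_of_lt_of_le hy' hε1⟩)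
    have hN' : |N (xc P', yc P')| = |xc (P' - P)| * |xc P' - xc P| ^ 2 := by
      rw [← abs_pow, ← abs_mul, h4]
    rw [hN'] at hN
    have hpos : 0 < |xc P' - xc P| := abs_pos.2 (sub_ne_zero.2 hxx)
    have h5 : R' * |xc P' - xc P| ^ 2 < |xc (P' - P)| * |xc P' - xc P| ^ 2 := by
      refine lt_of_le_of_lt ?_ hN
      refine le_trans ?_ hε3
      gcongr
    have h6 := lt_of_mul_lt_mul_right h5 (by positivity)
    exact (le_max_left _ _).trans h6.le

end KumWA
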